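import Pool.Agent.Q155.GN.Stm3
import Pool.Agent.Q144.GN.Port

/-!
# Project GN: job CV (locally trivial cocycles)
-/

set_option autoImplicit false
set_option linter.unusedSectionVars false

namespace Pool.Agent.Q144.GN

open NumberField IsDedekindDomain
open Pool.Agent.TH841.SH.D (Pt act Coch IsCoc IsCob LocTriv cob cob_zero Gal)
open Pool.Agent.TH841.NF.D (Sha shaCoc)

theorem cv : Q155.GN.S_CV := by
  intro K _ _ W a b hW ι d hd hl hr hne
  have hWG : W = WG a b := WeierstrassCurve.ext hW.h1 hW.h2 hW.h3 hW.h4 hW.h6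
  have hb := hW.hB
  subst hWG
  have hc : ∀ i, coc hb (d i) ∈ shaCoc (WG a b) := fun i =>
    ⟨coc_coc hb (d i), fun v => lot hb (d i) _ (hl i v), fun v => lot hb (d i) _ (hr i v)⟩
  let N : AddSubgroup (shaCoc (WG a b)) := (cob (WG a b)).addSubgroupOf (shaCoc (WG a b))
  let y : ι → shaCoc (WG a b) := fun i => ⟨coc hb (d i), hc i⟩
  have hneg : ∀ i, -(coc (a := a) hb (d i)) = coc hb (d i) := fun i =>
    neg_eq_of_add_eq_zero_left (coc_two hb (d i))
  refine ⟨fun i => (QuotientAddGroup.mk (y i) : shaCoc (WG a b) ⧸ N), ?_, ?_⟩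
  · intro i j hij
    by_contra hcon
    have h1 : (QuotientAddGroup.mk (y i) : shaCoc (WG a b) ⧸ N) = QuotientAddGroup.mk (y j) := hij
    rw [QuotientAddGroup.eq, AddSubgroup.mem_addSubgroupOf] at h1
    have h2 : ((-(y i) + y j : shaCoc (WG a b)) : Coch (WG a b)) = coc hb (d i * d j) := by
      have h3 : ((-(y i) + y j : shaCoc (WG a b)) : Coch (WG a b)) =
          -(coc hb (d i)) + coc hb (d j) := rfl
      rw [h3, hneg, coc_mul hb (hd i) (hd j)]
    rw [h2] at h1
    obtain ⟨n1, n2, n3⟩ := hne i j hcon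
    rcases cob_cases hb (d i * d j) (mul_ne_zero (hd i) (hd j)) h1 with h | h | h
    · exact n1 h
    · exact n2 h
    · exact n3 h
  · intro i
    have h5 : (QuotientAddGroup.mk (y i + y i) : shaCoc (WG a b) ⧸ N) = 0 := by
      rw [QuotientAddGroup.eq_zero_iff, AddSubgroup.mem_addSubgroupOf]
      have h6 : ((y i + y i : shaCoc (WG a b)) : Coch (WG a b)) = 0 := coc_two hb (d i)
      rw [h6]
      exact cob_zero _
    exact h5

end Pool.Agent.Q144.GN
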