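import Pool.Agent.Y668.AlAdd

/-!
# Points of `y² = x³ + D x` and `y² = x³ - D² x` over a field with `i`, finitely many points
-/

set_option autoImplicit false
set_option linter.unusedSectionVars false

namespace Pool.Agent.Q144.GN

open WeierstrassCurve Pool.Agent.Y668

variable {K : Type} [Field K]

lemma ns_of (h2 : (2 : K) ≠ 0) {A C x y : K} (hC : C ≠ 0) (hD : A ^ 2 - 4 * C ≠ 0)
    (h : y ^ 2 = x ^ 3 + A * x ^ 2 + C * x) : (Wt A C).toAffine.Nonsingular x y := by
  rw [← Affine.equation_iff_nonsingular_of_Δ_ne_zero]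
  · exact Wt_eqn.mpr h
  · have h1 : (Wt A C).Δ = 16 * C ^ 2 * (A ^ 2 - 4 * C) := by
      simp only [Wt, WeierstrassCurve.Δ, WeierstrassCurve.b₂, WeierstrassCurve.b₄,
        WeierstrassCurve.b₆, WeierstrassCurve.b₈]
      ring
    change (Wt A C).Δ ≠ 0
    rw [h1]
    have h16 : (16 : K) ≠ 0 := by
      have : (16 : K) = 2 ^ 4 := by norm_num
      rw [this]
      exact pow_ne_zero 4 h2
    exact mul_ne_zero (mul_ne_zero h16 (pow_ne_zero 2 hC)) hD

/-- cancellation of a square factor -/
lemma sq_cancel {x y : K} (hy : y ≠ 0) (h : IsSquare (x * y ^ 2)) : IsSquare x := by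
  obtain ⟨r, hr⟩ := h
  refine ⟨r / y, ?_⟩
  rw [div_mul_div_comm, ← hr, ← sq, mul_div_cancel_right₀ _ (pow_ne_zero 2 hy)]

section

variable [DecidableEq K]

lemma al_nsmul (h2 : (2 : K) ≠ 0) {a b : K} (hb : b ≠ 0) (P : (Wt a b).toAffine.Point) (n : ℕ) :
    IsSquare (al a b (n • P) * al a b P ^ n) := by
  induction n with
  | zero =>
    rw [zero_smul, al_zero, pow_zero, one_mul]
    exact ⟨1, (one_mul 1).symm⟩
  | succ n ih =>
    have h1 := al_add h2 (n • P) P
    refine sq_cancel (al_ne hb (n • P)) ?_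
    have h3 := h1.mul ih
    rw [succ_nsmul]
    have e : al a b (n • P + P) * al a b P ^ (n + 1) * al a b (n • P) ^ 2 =
        al a b (n • P + P) * (al a b (n • P) * al a b P) * (al a b (n • P) * al a b P ^ n) := by
      ring
    rw [e]
    exact h3

lemma al_odd (h2 : (2 : K) ≠ 0) {a b : K} (hb : b ≠ 0) (P : (Wt a b).toAffine.Point) {c : ℕ}
    (hc : Odd c) : IsSquare (al a b P * al a b (c • P)) := by
  obtain ⟨m, rfl⟩ := hc
  have h1 := al_nsmul h2 hb P (2 * m + 1)
  refine sq_cancel (pow_ne_zero m (al_ne hb P)) ?_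
  have e : al a b P * al a b ((2 * m + 1) • P) * (al a b P ^ m) ^ 2 =
      al a b ((2 * m + 1) • P) * al a b P ^ (2 * m + 1) := by
    ring
  rw [e]
  exact h1

/-- without points of order four every class is the class of a point of order two -/
lemma gen (h2 : (2 : K) ≠ 0) {a b : K} (hb : b ≠ 0) (hf : Finite (Wt a b).toAffine.Point)
    (h4 : ∀ Q : (Wt a b).toAffine.Point, (Q + Q) + (Q + Q) = 0 → Q + Q = 0)
    (P : (Wt a b).toAffine.Point) :
    ∃ R : (Wt a b).toAffine.Point, R + R = 0 ∧ IsSquare (al a b P * al a b R) := by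
  have hfin : IsOfFinAddOrder P := isOfFinAddOrder_of_finite P
  have hn : addOrderOf P ≠ 0 := hfin.addOrderOf_pos.ne'
  obtain ⟨e, c, hc, hec⟩ := Nat.exists_eq_two_pow_mul_odd hn
  refine ⟨c • P, ?_, al_odd h2 hb P hc⟩
  have h0 : (2 ^ e) • (c • P) = 0 := by
    rw [← mul_nsmul', ← hec]
    exact addOrderOf_nsmul_eq_zero P
  have key : ∀ e : ℕ, (2 ^ e) • (c • P) = 0 → c • P + c • P = 0 := by
    intro e
    induction e with
    | zero =>
      intro h
      rw [pow_zero, one_nsmul] at h
      rw [h, add_zero]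
    | succ e ih =>
      intro h
      rcases e with _ | e
      · rw [zero_add, pow_one, two_nsmul] at h
        exact h
      · apply ih
        have h5 := h4 ((2 ^ e) • (c • P)) (by
          rw [← two_nsmul, ← two_nsmul, ← mul_nsmul', ← mul_nsmul']
          have e1 : 2 * (2 * 2 ^ e) = 2 ^ (e + 1 + 1) := by ring
          first
            | (rw [e1]; exact h)
            | (rw [show 2 * 2 * 2 ^ e = 2 ^ (e + 1 + 1) by ring]; exact h))
        rw [← two_nsmul, ← mul_nsmul'] at h5
        rw [pow_succ, mul_comm]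
        exact h5
  exact key e h0

/-- the points of order two -/
lemma two_tor (h2 : (2 : K) ≠ 0) {b : K} (R : (Wt 0 b).toAffine.Point) (hR : R + R = 0)
    (hR0 : R ≠ 0) : ∃ (x : K) (h : (Wt 0 b).toAffine.Nonsingular x 0),
      R = Affine.Point.some x 0 h ∧ (x = 0 ∨ x ^ 2 = -b) := by
  cases R with
  | zero => exact absurd rfl hR0
  | some x y hn =>
    have h1 : (Affine.Point.some x y hn : (Wt 0 b).toAffine.Point) =
        -Affine.Point.some x y hn := eq_neg_of_add_eq_zero_left hR
    rw [Affine.Point.neg_some] at h1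
    have h3' : y = (Wt 0 b).toAffine.negY x y := by
      simpa using h1
    have h3 : y = 0 := by
      simp only [Affine.negY, Wt] at h3'
      have h2' : (2 : K) * y = 0 := by linear_combination h3'
      exact (mul_eq_zero.1 h2').resolve_left h2
    subst h3
    refine ⟨x, hn, rfl, ?_⟩
    have h4 := Wt_eqn.mp hn.1
    have h5 : x * (x ^ 2 + b) = 0 := by linear_combination -h4
    rcases mul_eq_zero.1 h5 with h6 | h6
    · exact Or.inl h6
    · exact Or.inr (by linear_combination h6)

/-- the double of a point which is `(0, 0)` -/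
lemma double_T (h2 : (2 : K) ≠ 0) {b : K} (Q : (Wt 0 b).toAffine.Point) (y0 : K)
    (h0 : (Wt 0 b).toAffine.Nonsingular 0 y0) (hQ : Q + Q = Affine.Point.some 0 y0 h0) :
    ∃ x y : K, y ^ 2 = x ^ 3 + b * x ∧ x ^ 2 = b := by
  cases Q with
  | zero =>
    exfalso
    have : (0 : (Wt 0 b).toAffine.Point) + 0 = Affine.Point.some 0 y0 h0 := hQ
    rw [add_zero] at this
    exact Affine.Point.some_ne_zero _ this.symm
  | some x y hn =>
    have q := Wt_eqn.mp hn.1
    by_cases hneg : y = (Wt 0 b).toAffine.negY x y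
    · exfalso
      rw [Affine.Point.add_of_Y_eq rfl hneg] at hQ
      exact Affine.Point.some_ne_zero _ hQ.symm
    · rw [Affine.Point.add_self_of_Y_ne hneg] at hQ
      have hQ' := (Affine.Point.some.injEq _ _ _ _ _ _).mp hQ
      obtain ⟨hx, -⟩ := hQ'
      have hy0 : y ≠ 0 := by
        intro h
        apply hneg
        simp only [Affine.negY, Wt]
        rw [h]; ring
      have h2y : 2 * y ≠ 0 := mul_ne_zero h2 hy0
      set s := (Wt 0 b).toAffine.slope x x y y with hs
      have hslope : s * (2 * y) = 3 * x ^ 2 + b := by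
        rw [hs, Affine.slope_of_Y_ne rfl hneg]
        simp only [Affine.negY, Wt]
        have e3' : y - (-y - 0 * x - 0) = 2 * y := by ring
        rw [e3', div_mul_cancel₀ _ h2y]
        ring
      have hX : (Wt 0 b).toAffine.addX x x s = s ^ 2 - 2 * x := by
        simp only [Affine.addX, Wt]; ring
      rw [hX] at hx
      refine ⟨x, y, by linear_combination q, ?_⟩
      have key : (s ^ 2 - 2 * x) * (2 * y) ^ 2 = (x ^ 2 - b) ^ 2 := by
        have h5 : (s * (2 * y)) ^ 2 = (3 * x ^ 2 + b) ^ 2 := by rw [hslope]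
        linear_combination h5 + (-8 * x) * q
      rw [hx, zero_mul] at key
      have h6 := pow_eq_zero_iff (two_ne_zero) |>.1 key.symm
      exact sub_eq_zero.1 h6

end

/-- the class of a point of the isogenous curve comes from the curve itself -/
lemma of_iso (h2 : (2 : K) ≠ 0) {i b d X Y r : K} (hi : i ^ 2 = -1) (hb : b ≠ 0) (hX : X ≠ 0)
    (hY : Y ^ 2 = X ^ 3 - 2 * 0 * X ^ 2 + (0 ^ 2 - 4 * b) * X) (hXd : X = d * r ^ 2) :
    ∃ P : (Wt 0 b).toAffine.Point, IsSquare (d * al 0 b P) := by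
  have hi0 : i ≠ 0 := by
    rintro rfl
    rw [zero_pow two_ne_zero] at hi
    exact one_ne_zero (neg_eq_zero.1 hi.symm)
  have h1i : (1 + i) ≠ 0 := by
    intro h
    have h3 : (1 + i) ^ 2 = 2 * i := by linear_combination hi
    rw [h, zero_pow two_ne_zero] at h3
    exact mul_ne_zero h2 hi0 h3.symm
  have h2i : (2 : K) * i ≠ 0 := mul_ne_zero h2 hi0
  have hb4 : (0 : K) ^ 2 - 4 * b ≠ 0 := by
    have h4 : (4 : K) = 2 ^ 2 := by norm_num
    rw [h4]
    intro h
    have h5 : (2 : K) ^ 2 * b = 0 := by linear_combination -h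
    exact mul_ne_zero (pow_ne_zero 2 h2) hb h5
  have hE : (Y / (1 + i) ^ 3) ^ 2 = (X / (2 * i)) ^ 3 + 0 * (X / (2 * i)) ^ 2 +
      b * (X / (2 * i)) := by
    have e1 : (1 + i) ^ 6 = -8 * i := by
      have h3 : (1 + i) ^ 2 = 2 * i := by linear_combination hi
      calc (1 + i) ^ 6 = ((1 + i) ^ 2) ^ 3 := by ring
        _ = (2 * i) ^ 3 := by rw [h3]
        _ = -8 * i := by linear_combination (8 * i) * hi
    have e2 : (Y / (1 + i) ^ 3) ^ 2 = Y ^ 2 / (-8 * i) := by
      rw [div_pow, ← pow_mul, e1]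
    have h8 : (-8 : K) * i ≠ 0 := by
      rw [← e1]
      exact pow_ne_zero 6 h1i
    have e3 : (X / (2 * i)) ^ 3 = X ^ 3 / (-8 * i) := by
      rw [div_pow]
      congr 1
      linear_combination (8 * i) * hi
    have e4 : b * (X / (2 * i)) = (-4 * b * X) / (-8 * i) := by
      rw [eq_div_iff h8]
      field_simp
      ring
    rw [e2, e3, e4, hY]
    ring
  have hns := ns_of h2 hb hb4 hE
  refine ⟨Affine.Point.some _ _ hns, ?_⟩
  rw [al_some, if_neg (div_ne_zero hX h2i)]
  have h3 : (1 + i) ^ 2 = 2 * i := by linear_combination hi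
  refine ⟨d * r / (1 + i), ?_⟩
  rw [← h3, hXd]
  field_simp

/-- the classes for the two curves -/
theorem classes (h2 : (2 : K) ≠ 0) {i D d : K} (hi : i ^ 2 = -1) (hD : D ≠ 0)
    (hDs : ¬ IsSquare D) (b : K) (hbD : b = D ∨ b = -D ^ 2)
    (hf : Finite (Wt 0 b).toAffine.Point) {X Y r : K} (hX : X ≠ 0)
    (hY : Y ^ 2 = X ^ 3 - 2 * 0 * X ^ 2 + (0 ^ 2 - 4 * b) * X) (hXd : X = d * r ^ 2) :
    IsSquare d ∨ IsSquare (d * D) := by
  classical
  have hb : b ≠ 0 := by
    rcases hbD with rfl | rfl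
    · exact hD
    · exact neg_ne_zero.2 (pow_ne_zero 2 hD)
  have hi0 : i ≠ 0 := by
    rintro rfl
    rw [zero_pow two_ne_zero] at hi
    exact one_ne_zero (neg_eq_zero.1 hi.symm)
  have hDi : (D * i ^ 2) = -D := by rw [hi]; ring
  have hnD : ¬ IsSquare (-D) := by
    intro h
    rw [← hDi] at h
    exact hDs (sq_cancel hi0 h)
  -- classes of the points of order two
  have hcl : ∀ (x : K) (h : (Wt 0 b).toAffine.Nonsingular x 0), (x = 0 ∨ x ^ 2 = -b) →
      al 0 b (Affine.Point.some x 0 h) = D ∨ al 0 b (Affine.Point.some x 0 h) = -D ∨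
        (al 0 b (Affine.Point.some x 0 h) = -D ^ 2 ∧ x = 0 ∧ b = -D ^ 2) := by
    intro x h hx
    rw [al_some]
    rcases hbD with hbD | hbD
    · by_cases hx0 : x = 0
      · rw [if_pos hx0, hbD]
        exact Or.inl rfl
      · exfalso
        have hx2 := hx.resolve_left hx0
        rw [hbD] at hx2
        exact hnD ⟨x, by rw [← hx2, sq]⟩
    · by_cases hx0 : x = 0
      · rw [if_pos hx0]
        exact Or.inr (Or.inr ⟨hbD, hx0, hbD⟩)
      · rw [if_neg hx0]
        have hx2 := hx.resolve_left hx0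
        rw [hbD, neg_neg] at hx2
        rcases sq_eq_sq_iff_eq_or_eq_neg.1 hx2 with h | h
        · exact Or.inl h
        · exact Or.inr (Or.inl h)
  have h4 : ∀ Q : (Wt 0 b).toAffine.Point, (Q + Q) + (Q + Q) = 0 → Q + Q = 0 := by
    intro Q hQ
    by_contra hne
    obtain ⟨x, hn, hQx, hx⟩ := two_tor h2 (Q + Q) hQ hne
    have hsq : IsSquare (al 0 b (Q + Q)) := by
      have h1 := al_add h2 Q Q
      refine sq_cancel (al_ne hb Q) ?_
      rw [sq]
      exact h1
    rw [hQx] at hsq
    rcases hcl x hn hx with h | h | ⟨-, h, h'⟩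
    · rw [h] at hsq
      exact hDs hsq
    · rw [h] at hsq
      exact hnD hsq
    · subst h
      obtain ⟨x, y, hxy, hxb⟩ := double_T h2 Q 0 hn hQx
      rw [h'] at hxy hxb
      have h5 : (x - i * D) * (x + i * D) = 0 := by
        linear_combination hxb - D ^ 2 * hi
      rcases mul_eq_zero.1 h5 with h6 | h6
      · have hx' : x = i * D := sub_eq_zero.1 h6
        -- `y² = -2 i D³ = (1 - i)² D³`
        have h1i : (1 - i) ≠ 0 := by
          intro h
          have h3 : (1 - i) ^ 2 = -(2 * i) := by linear_combination hi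
          rw [h, zero_pow two_ne_zero] at h3
          exact mul_ne_zero h2 hi0 (neg_eq_zero.1 h3.symm)
        apply hDs
        refine sq_cancel (mul_ne_zero h1i hD) ⟨y, ?_⟩
        rw [← sq, hxy, hx']
        linear_combination (D ^ 3 * (1 - i)) * hi
      · have hx' : x = -(i * D) := eq_neg_of_add_eq_zero_left h6
        have h1i : (1 + i) ≠ 0 := by
          intro h
          have h3 : (1 + i) ^ 2 = 2 * i := by linear_combination hi
          rw [h, zero_pow two_ne_zero] at h3
          exact mul_ne_zero h2 hi0 h3.symm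
        apply hDs
        refine sq_cancel (mul_ne_zero h1i hD) ⟨y, ?_⟩
        rw [← sq, hxy, hx']
        linear_combination (D ^ 3 * (1 + i)) * hi
  obtain ⟨P, hP⟩ := of_iso h2 hi hb hX hY hXd
  obtain ⟨R, hR, hPR⟩ := gen h2 hb hf h4 P
  have hdR : IsSquare (d * al 0 b R) := by
    refine sq_cancel (al_ne hb P) ?_
    have e : d * al 0 b R * al 0 b P ^ 2 = (d * al 0 b P) * (al 0 b P * al 0 b R) := by ring
    rw [e]
    exact hP.mul hPR
  by_cases hR0 : R = 0
  · left
    rw [hR0, al_zero, mul_one] at hdR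
    exact hdR
  · obtain ⟨x, hn, hRx, hx⟩ := two_tor h2 R hR hR0
    rw [hRx] at hdR
    rcases hcl x hn hx with h | h | ⟨h, -, -⟩
    · right
      rwa [h] at hdR
    · right
      rw [h] at hdR
      refine sq_cancel hi0 ?_
      rw [hi]
      have e : d * D * -1 = d * -D := by ring
      rwa [e]
    · left
      rw [h] at hdR
      refine sq_cancel (mul_ne_zero hi0 hD) ?_
      have e : d * (i * D) ^ 2 = d * -D ^ 2 := by
        linear_combination (d * D ^ 2) * hi
      rwa [e]

end Pool.Agent.Q144.GN
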