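import Pool.Agent.Q155.GN.Stm3
import Pool.Agent.Q144.GN.TorA

/-!
# Project GN: job TOR
-/

set_option autoImplicit false
set_option linter.unusedSectionVars false

namespace Pool.Agent.Q144.GN

theorem tor : Q155.GN.S_TOR := by
  intro K _ _ i D hi hD hDs W hf d
  refine ⟨?_, ?_⟩
  · rintro hW ⟨X, Y, r, hX, hY, hXd⟩
    have hWG : W = Pool.Agent.Y668.Wt 0 D :=
      WeierstrassCurve.ext hW.h1 hW.h2 hW.h3 hW.h4 hW.h6
    subst hWG
    exact classes two_ne_zero hi hD hDs D (Or.inl rfl) hf hX hY hXd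
  · rintro hW ⟨X, Y, r, hX, hY, hXd⟩
    have hWG : W = Pool.Agent.Y668.Wt 0 (-D ^ 2) :=
      WeierstrassCurve.ext hW.h1 hW.h2 hW.h3 hW.h4 hW.h6
    subst hWG
    exact classes two_ne_zero hi hD hDs (-D ^ 2) (Or.inr rfl) hf hX hY hXd

end Pool.Agent.Q144.GN
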